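import Mathlib

set_option autoImplicit false

namespace Pool.Agent.MP_3827f0_nt.H93

open Filter Set

/-- The degree of a rational function written in lowest terms. -/
noncomputable def deg (r : RatFunc ℂ) : ℕ := max r.num.natDegree r.denom.natDegree

/-- The point `a / b` of the Riemann sphere, `∞` if `b = 0`. -/
noncomputable def quot (a b : ℂ) : OnePoint ℂ :=
  if b = 0 then OnePoint.infty else OnePoint.some (a / b)

/-- The self-map of the Riemann sphere given by a rational function. -/
noncomputable def act (r : RatFunc ℂ) (p : OnePoint ℂ) : OnePoint ℂ :=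
  p.elim (quot (r.num.coeff (deg r)) (r.denom.coeff (deg r)))
    fun z => quot (r.num.eval z) (r.denom.eval z)

/-- The chordal distance on the Riemann sphere. -/
noncomputable def chordal (p q : OnePoint ℂ) : ℝ :=
  p.elim (q.elim 0 fun w => 1 / √(1 + ‖w‖ ^ 2))
    fun z => q.elim (1 / √(1 + ‖z‖ ^ 2))
      fun w => ‖z - w‖ / (√(1 + ‖z‖ ^ 2) * √(1 + ‖w‖ ^ 2))

/-- The iterates `f^n`, `n ≥ 1`, form a normal family on `U`: every sequence of them has a
subsequence that converges uniformly on the compact subsets of `U` in the chordal metric. -/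
def IsNormalOn (f : OnePoint ℂ → OnePoint ℂ) (U : Set (OnePoint ℂ)) : Prop :=
  ∀ n : ℕ → ℕ, (∀ k, 1 ≤ n k) → ∃ φ : ℕ → ℕ, StrictMono φ ∧ ∃ g : OnePoint ℂ → OnePoint ℂ,
    ∀ K : Set (OnePoint ℂ), K ⊆ U → IsCompact K → ∀ ε : ℝ, 0 < ε →
      ∀ᶠ k in atTop, ∀ z ∈ K, chordal (f^[n (φ k)] z) (g z) < ε

/-- The Julia set: the complement of the union of all open sets of normality. -/
def julia (f : OnePoint ℂ → OnePoint ℂ) : Set (OnePoint ℂ) :=
  (⋃₀ {U | IsOpen U ∧ IsNormalOn f U})ᶜ

/-- The points with finite forward orbit. -/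
def preper (f : OnePoint ℂ → OnePoint ℂ) : Set (OnePoint ℂ) :=
  {z | (range fun n : ℕ => f^[n] z).Finite}

end Pool.Agent.MP_3827f0_nt.H93
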