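import Pool.Agent.MP_3827f0_nt.H92.Main
import Pool.Agent.MP_3827f0_nt.H93.Defs

set_option autoImplicit false

namespace Pool.Agent.MP_3827f0_nt.H93

open Filter Set Topology Metric H92

/-! ### An Arzelà–Ascoli lemma -/

theorem aa {X : Type} [MetricSpace X] [CompactSpace X] {U : Set X} (hU : IsOpen U)
    (F : ℕ → X → X) (hF : ∀ x ∈ U, EquicontinuousAt F x) :
    ∃ φ : ℕ → ℕ, StrictMono φ ∧ ∃ g : X → X, ∀ K : Set X, K ⊆ U → IsCompact K →
      TendstoUniformlyOn (fun k => F (φ k)) g atTop K := by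
  classical
  have : LocallyCompactSpace U := hU.locallyCompactSpace
  let F' : ℕ → U → X := fun k u => F k u
  have h1 : Equicontinuous F' := by
    intro u V hV
    exact continuous_subtype_val.continuousAt (hF u u.2 V hV)
  have h2 : (range F').Equicontinuous := by
    have := equicontinuous_iff_range.1 h1
    exact this
  have h3 : (closure (range F')).Equicontinuous := h2.closure
  let S : Set C(U, X) := {h | (h : U → X) ∈ closure (range F')}
  have hS : ContinuousMap.toFun '' S = closure (range F') := by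
    ext h
    constructor
    · rintro ⟨h', hh', rfl⟩
      exact hh'
    · intro hh
      exact ⟨⟨h, h3.continuous ⟨h, hh⟩⟩, hh, rfl⟩
  have hc : IsCompact S := by
    refine ArzelaAscoli.isCompact_of_equicontinuous S (hS ▸ isClosed_closure.isCompact) ?_
    exact h3.comp (fun h : S => (⟨h.1, h.2⟩ : closure (range F')))
  let G : ℕ → C(U, X) := fun k => ⟨F' k, h1.continuous k⟩
  obtain ⟨a, -, φ, hφ, ha⟩ := hc.tendsto_subseq (x := G)
    (fun k => subset_closure (s := range F') ⟨k, rfl⟩)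
  refine ⟨φ, hφ, fun x => if h : x ∈ U then a ⟨x, h⟩ else x, fun K hKU hK => ?_⟩
  have hK' : IsCompact ((Subtype.val : U → X) ⁻¹' K) :=
    Topology.IsInducing.subtypeVal.isCompact_preimage' hK (by simpa using hKU)
  have h4 := ContinuousMap.tendsto_iff_forall_isCompact_tendstoUniformlyOn.1 ha _ hK'
  rw [Metric.tendstoUniformlyOn_iff] at h4 ⊢
  intro ε hε
  filter_upwards [h4 ε hε] with k hk x hx
  rw [dif_pos (hKU hx)]
  exact hk ⟨x, hKU hx⟩ hx

/-! ### The metric on the sphere -/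

/-- homogeneous coordinates -/
noncomputable def lift (p : OnePoint ℂ) : V ℂ := p.elim ![1, 0] fun z => ![z, 1]

lemma lift_ne (p : OnePoint ℂ) : lift p ≠ 0 := by
  induction p using OnePoint.rec with
  | infty => intro h; simpa [lift] using congrFun h 0
  | coe z => intro h; simpa [lift] using congrFun h 1

lemma pt_lift (p : OnePoint ℂ) : pt (lift p) = p := by
  induction p using OnePoint.rec with
  | infty => simp [lift, pt]
  | coe z => simp [lift, pt]

/-- the distance -/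
noncomputable def D (p q : OnePoint ℂ) : ℝ := dlt (lift p) (lift q)

lemma D_pt {X Y : V ℂ} (hX : X ≠ 0) (hY : Y ≠ 0) : D (pt X) (pt Y) = dlt X Y := by
  have h1 : wedge (lift (pt X)) X = 0 := (pt_eq_iff (lift_ne _) hX).1 (pt_lift _)
  have h2 : wedge (lift (pt Y)) Y = 0 := (pt_eq_iff (lift_ne _) hY).1 (pt_lift _)
  rw [D, dlt_congr (lift_ne _) hX h1, dlt_comm, dlt_congr (lift_ne _) hY h2, dlt_comm]

/-- the metric space structure -/
@[reducible] noncomputable def met : MetricSpace (OnePoint ℂ) :=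
  MetricSpace.ofDistTopology D (fun x => CJulAux.dlt_self' (lift_ne x))
    (fun _ _ => dlt_comm _ _) (fun _ y _ => dlt_triangle (lift_ne y))
    (fun s => by
      rw [isOpen_iff_mem_nhds]
      refine forall₂_congr fun x _ => ?_
      conv_lhs => rw [← pt_lift x, mem_nhds_pt (lift_ne x)]
      constructor
      · rintro ⟨δ, hδ, h⟩
        refine ⟨δ, hδ, fun y hy => ?_⟩
        rw [← pt_lift y]
        exact h _ (lift_ne y) (by rw [dlt_comm]; exact hy)
      · rintro ⟨δ, hδ, h⟩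
        refine ⟨δ, hδ, fun W hW hd => h _ ?_⟩
        rw [← pt_lift x, D_pt (lift_ne x) hW, dlt_comm]
        exact hd)
    (fun x y h => by
      rw [← pt_lift x, ← pt_lift y]
      exact (pt_eq_iff (lift_ne x) (lift_ne y)).2
        ((dlt_eq_zero_iff (lift_ne x) (lift_ne y)).1 h))

/-- Euclidean size of the coordinates -/
noncomputable def N (p : OnePoint ℂ) : ℝ := p.elim 1 fun z => √(1 + ‖z‖ ^ 2)

lemma chordal_eq (p q : OnePoint ℂ) :
    chordal p q = ‖wedge (lift p) (lift q)‖ / (N p * N q) := by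
  induction p using OnePoint.rec with
  | infty =>
    induction q using OnePoint.rec with
    | infty => simp [chordal, lift, N, wedge]
    | coe w => simp [chordal, lift, N, wedge]
  | coe z =>
    induction q using OnePoint.rec with
    | infty => simp [chordal, lift, N, wedge]
    | coe w => simp [chordal, lift, N, wedge]

lemma norm_e0 : ‖(![1, 0] : V ℂ)‖ = 1 := by
  apply le_antisymm
  · refine (pi_norm_le_iff_of_nonneg zero_le_one).2 fun i => ?_
    fin_cases i <;> simp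
  · simpa using norm_le_pi_norm (![1, 0] : V ℂ) 0

lemma norm_lift_le (p : OnePoint ℂ) : ‖lift p‖ ≤ N p := by
  induction p using OnePoint.rec with
  | infty => simp [lift, N, norm_e0]
  | coe z =>
    simp only [lift, N, OnePoint.elim_some]
    refine (pi_norm_le_iff_of_nonneg (Real.sqrt_nonneg _)).2 fun i => ?_
    fin_cases i
    · refine Real.le_sqrt_of_sq_le ?_
      simp
    · refine Real.le_sqrt_of_sq_le ?_
      simp

lemma N_sq_le (p : OnePoint ℂ) : N p ^ 2 ≤ 2 * ‖lift p‖ ^ 2 := by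
  induction p using OnePoint.rec with
  | infty => simp [lift, N, norm_e0]
  | coe z =>
    simp only [lift, N, OnePoint.elim_some]
    rw [Real.sq_sqrt (by positivity)]
    have h1 := CJulAux.one_le_norm_aff z
    have h2 := CJulAux.le_norm_aff z
    have h3 := norm_nonneg z
    nlinarith

lemma chordal_le (p q : OnePoint ℂ) : chordal p q ≤ D p q := by
  rw [chordal_eq, D, dlt]
  have h1 := norm_pos_iff.2 (lift_ne p)
  have h2 := norm_pos_iff.2 (lift_ne q)
  exact div_le_div_of_nonneg_left (norm_nonneg _) (mul_pos h1 h2)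
    (mul_le_mul (norm_lift_le p) (norm_lift_le q) h2.le (h1.le.trans (norm_lift_le p)))

lemma D_le (p q : OnePoint ℂ) : D p q ≤ 2 * chordal p q := by
  rw [chordal_eq, D, dlt]
  have h1 := norm_pos_iff.2 (lift_ne p)
  have h2 := norm_pos_iff.2 (lift_ne q)
  have h3 := h1.trans_le (norm_lift_le p)
  have h4 := h2.trans_le (norm_lift_le q)
  have h5 : N p * N q ≤ 2 * (‖lift p‖ * ‖lift q‖) := by
    refine le_of_sq_le_sq ?_ (by positivity)
    have := mul_le_mul (N_sq_le p) (N_sq_le q) (by positivity) (by positivity)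
    nlinarith
  rw [mul_div_assoc', div_le_div_iff₀ (mul_pos h1 h2) (mul_pos h3 h4)]
  have h6 := norm_nonneg (wedge (lift p) (lift q))
  nlinarith

/-! ### Normality and the escape rate -/

section Dyn

variable {d : ℕ} {F : PM ℂ} {G : V ℂ → ℝ} {f : OnePoint ℂ → OnePoint ℂ}

lemma cont_of (h : Dyn d F G) (hf : ∀ W, W ≠ 0 → f (pt W) = pt (app F W)) : Continuous f := by
  rw [continuous_iff_continuousAt]
  intro q U hU
  obtain ⟨Z, hZ, rfl⟩ := pt_surj q
  have hFZ : app F Z ≠ 0 := fun h0 => hZ (h.nondeg Z h0)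
  rw [hf Z hZ] at hU
  have h1 : ContinuousAt (fun W => pt (app F W)) Z :=
    (CJulAux.continuousAt_pt hFZ).comp (analyticAt_app F Z).continuousAt
  obtain ⟨δ, hδ, hn⟩ := exists_near hZ (h1 hU)
  rw [mem_map, mem_nhds_pt hZ]
  refine ⟨δ, hδ, fun W hW hd => ?_⟩
  obtain ⟨t, ht, h2⟩ := hn W hW hd
  have h3 : pt (t • W) = pt W := (pt_eq_iff (smul_ne_zero ht hW) hW).2 (by
    rw [wedge_smul_left, wedge_self, mul_zero])
  rw [mem_preimage, ← h3, hf _ (smul_ne_zero ht hW)]
  exact h2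

lemma normal_of_fat (h : Dyn d F G) (hf : ∀ W, W ≠ 0 → f (pt W) = pt (app F W)) :
    IsOpen {q | Fat G (lift q)} ∧ IsNormalOn f {q | Fat G (lift q)} := by
  let _ := met
  have hd : ∀ p q : OnePoint ℂ, dist p q = D p q := fun _ _ => rfl
  have hop : IsOpen {q | Fat G (lift q)} := by
    rw [isOpen_iff_mem_nhds]
    intro q hq
    obtain ⟨δ, hδ, hδ'⟩ := h.fat_open (lift_ne q) hq
    rw [← pt_lift q, mem_nhds_pt (lift_ne q)]
    refine ⟨δ, hδ, fun W hW hd => ?_⟩
    exact h.fat_wedge hW (lift_ne _) ((pt_eq_iff hW (lift_ne _)).1 (pt_lift _).symm) (hδ' W hW hd)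
  refine ⟨hop, fun n _ => ?_⟩
  obtain ⟨φ, hφ, g, hg⟩ := aa hop (fun k => f^[n k]) (fun q hq => by
    rw [Metric.equicontinuousAt_iff]
    intro ε hε
    obtain ⟨δ, hδ, hδ'⟩ := h.equicont (lift_ne q) hq hε
    refine ⟨δ, hδ, fun x hx k => ?_⟩
    rw [hd, ← pt_lift q, ← pt_lift x, MainAux.iter_pt h.nondeg hf _ (lift_ne q),
      MainAux.iter_pt h.nondeg hf _ (lift_ne x),
      D_pt (h.nondeg.iter_ne _ (lift_ne q)) (h.nondeg.iter_ne _ (lift_ne x)), dlt_comm]
    exact hδ' _ (lift_ne x) hx _)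
  refine ⟨φ, hφ, g, fun K hKU hK ε hε => ?_⟩
  filter_upwards [Metric.tendstoUniformlyOn_iff.1 (hg K hKU hK) ε hε] with k hk z hz
  refine (chordal_le _ _).trans_lt ?_
  rw [← hd, dist_comm]
  exact hk z hz

lemma fat_of_normal (h : Dyn d F G) (hf : ∀ W, W ≠ 0 → f (pt W) = pt (app F W))
    {U : Set (OnePoint ℂ)} (hU : IsOpen U) (hN : IsNormalOn f U) {Z : V ℂ} (hZ : Z ≠ 0)
    (hZU : pt Z ∈ U) : Fat G Z := by
  let _ := met
  have hd : ∀ p q : OnePoint ℂ, dist p q = D p q := fun _ _ => rfl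
  obtain ⟨φ, hφ, g, hg⟩ := hN (fun k => k + 1) (fun k => by omega)
  obtain ⟨K, hK, hKn, hKU⟩ := exists_compact_subset hU hZU
  let A : Fin 4 → V ℂ := fun i => ![(i : ℕ), 1]
  have hA0 : ∀ i, A i ≠ 0 := fun i => aff_ne_zero _
  have hA : ∀ i j, i ≠ j → wedge (A i) (A j) ≠ 0 := by
    intro i j hij h0
    apply hij
    have : ((i : ℕ) : ℂ) = (j : ℕ) := by simpa [A, wedge, sub_eq_zero] using h0
    exact Fin.ext (by exact_mod_cast this)
  obtain ⟨ε, hε, hεA⟩ : ∃ ε : ℝ, 0 < ε ∧ ∀ i j, i ≠ j → ε ≤ dlt (A i) (A j) := by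
    obtain ⟨ε, hε, h1⟩ : ∃ ε : ℝ, 0 < ε ∧ ∀ p ∈ (Finset.univ : Finset (Fin 4 × Fin 4)),
        p.1 ≠ p.2 → ε ≤ dlt (A p.1) (A p.2) := by
      have : ∀ᶠ ε in 𝓝[>] (0 : ℝ), ∀ p ∈ (Finset.univ : Finset (Fin 4 × Fin 4)),
          p.1 ≠ p.2 → ε ≤ dlt (A p.1) (A p.2) := by
        rw [eventually_all_finset]
        intro p _
        by_cases hp : p.1 = p.2
        · exact Eventually.of_forall fun _ h => absurd hp h
        · have hpos : 0 < dlt (A p.1) (A p.2) := lt_of_le_of_ne (dlt_nonneg _ _)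
            fun h0 => hA _ _ hp ((dlt_eq_zero_iff (hA0 _) (hA0 _)).1 h0.symm)
          filter_upwards [Ioc_mem_nhdsGT hpos] with ε hε _ using hε.2
      obtain ⟨ε, h1, h2⟩ := (this.and self_mem_nhdsWithin).exists
      exact ⟨ε, h2, h1⟩
    exact ⟨ε, hε, fun i j hij => h1 (i, j) (Finset.mem_univ _) hij⟩
  have h1 := hg K hKU hK (ε / 12) (by positivity)
  obtain ⟨k₀, hk₀⟩ := eventually_atTop.1 h1
  have hc : ContinuousAt (f^[φ k₀ + 1]) (pt Z) := ((cont_of h hf).iterate _).continuousAt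
  have h2 : {q | dist (f^[φ k₀ + 1] q) (f^[φ k₀ + 1] (pt Z)) < ε / 6} ∩ K ∈ 𝓝 (pt Z) :=
    inter_mem (Metric.tendsto_nhds.1 hc _ (by positivity)) (mem_interior_iff_mem_nhds.1 hKn)
  obtain ⟨δ, hδ, hδ'⟩ := (mem_nhds_pt hZ _).1 h2
  refine h.fat_of_four hZ A hA hδ ?_
  have ht : Tendsto (fun k => φ k + 1) atTop atTop :=
    tendsto_add_atTop_nat 1 |>.comp hφ.tendsto_atTop
  refine ht.frequently (Eventually.frequently ?_)
  filter_upwards [eventually_ge_atTop k₀] with k hk W W' hW hW' hWd hW'd i j hi hj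
  by_contra hij
  have e1 : ∀ X, X ≠ 0 → dlt X Z < δ →
      dist (f^[φ k + 1] (pt X)) (f^[φ k₀ + 1] (pt Z)) < ε / 2 := by
    intro X hX hXd
    obtain ⟨a1, a2⟩ := hδ' X hX hXd
    have a3 := (D_le _ _).trans_lt (mul_lt_mul_of_pos_left (hk₀ k hk _ a2) two_pos)
    have a4 := (D_le _ _).trans_lt (mul_lt_mul_of_pos_left (hk₀ k₀ le_rfl _ a2) two_pos)
    rw [← hd] at a3 a4
    have a5 := dist_triangle_right (f^[φ k + 1] (pt X)) (f^[φ k₀ + 1] (pt X)) (g (pt X))
    have a6 := dist_triangle (f^[φ k + 1] (pt X)) (f^[φ k₀ + 1] (pt X)) (f^[φ k₀ + 1] (pt Z))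
    have a7 : dist (f^[φ k₀ + 1] (pt X)) (f^[φ k₀ + 1] (pt Z)) < ε / 6 := a1
    linarith
  have e2 := dist_triangle_right (f^[φ k + 1] (pt W)) (f^[φ k + 1] (pt W'))
    (f^[φ k₀ + 1] (pt Z))
  have e3 : dist (f^[φ k + 1] (pt W)) (f^[φ k + 1] (pt W')) = dlt (A i) (A j) := by
    rw [MainAux.iter_pt h.nondeg hf _ hW, MainAux.iter_pt h.nondeg hf _ hW',
      (pt_eq_iff (h.nondeg.iter_ne _ hW) (hA0 i)).2 hi,
      (pt_eq_iff (h.nondeg.iter_ne _ hW') (hA0 j)).2 hj, hd, D_pt (hA0 i) (hA0 j)]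
  have e4 := hεA i j hij
  have e5 := e1 W hW hWd
  have e6 := e1 W' hW' hW'd
  linarith

theorem julia_eq (h : Dyn d F G) (hf : ∀ W, W ≠ 0 → f (pt W) = pt (app F W)) :
    julia f = {z : OnePoint ℂ | ∀ U ∈ 𝓝 z, (⋃ n : ℕ, f^[n] '' U)ᶜ.Finite} := by
  ext z
  rw [mem_ofPred_eq, ← pt_lift z, h.blowup_iff hf (lift_ne z), julia, mem_compl_iff, not_iff_not]
  constructor
  · rintro ⟨U, ⟨hU, hN⟩, hz⟩
    exact fat_of_normal h hf hU hN (lift_ne z) hz
  · intro hz
    exact ⟨_, normal_of_fat h hf, by rw [pt_lift]; exact hz⟩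

end Dyn

/-! ### Homogeneous lifts of rational functions -/

lemma eval_homog_zero (p : Polynomial ℂ) (n : ℕ) (x : Fin 2 → ℂ) (hx : x 1 = 0) :
    MvPolynomial.eval x (p.homogenize n) = p.coeff n * x 0 ^ n := by
  rw [Polynomial.homogenize, map_sum, Finset.sum_eq_single (n, 0)]
  · simp [MvPolynomial.eval_monomial, Finsupp.prod_fintype, Fin.prod_univ_two]
  · rintro ⟨a, b⟩ hab hne
    have hb : b ≠ 0 := by
      rintro rfl
      apply hne
      simpa using hab
    simp [MvPolynomial.eval_monomial, Finsupp.prod_fintype, Fin.prod_univ_two, hx, hb]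
  · simp

lemma quot_mul (a b c : ℂ) (hc : c ≠ 0) : quot (a * c) (b * c) = quot a b := by
  unfold quot
  by_cases hb : b = 0
  · simp [hb]
  · rw [if_neg (mul_ne_zero hb hc), if_neg hb, mul_div_mul_right _ _ hc]

theorem exists_lift (r : RatFunc ℂ) {d : ℕ} (hr : deg r = d) :
    ∃ F : PM ℂ, Hom d F ∧ Nondeg F ∧ ∀ W, W ≠ 0 → act r (pt W) = pt (app F W) := by
  have h1 : r.num.natDegree ≤ d := hr ▸ le_max_left _ _
  have h2 : r.denom.natDegree ≤ d := hr ▸ le_max_right _ _
  have happ : ∀ W : V ℂ, app ![r.num.homogenize d, r.denom.homogenize d] W =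
      ![MvPolynomial.eval W (r.num.homogenize d), MvPolynomial.eval W (r.denom.homogenize d)] :=
    fun W => MainAux.vec_eq rfl rfl
  have hq : ∀ a b : ℂ, pt ![a, b] = quot a b := fun a b => by simp [pt, quot]
  refine ⟨![r.num.homogenize d, r.denom.homogenize d], fun i => ?_, fun Z hZ => ?_,
    fun W hW => ?_⟩
  · fin_cases i
    · exact Polynomial.isHomogeneous_homogenize _
    · exact Polynomial.isHomogeneous_homogenize _
  · have a0 : MvPolynomial.eval Z (r.num.homogenize d) = 0 := congrFun hZ 0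
    have a1 : MvPolynomial.eval Z (r.denom.homogenize d) = 0 := congrFun hZ 1
    by_contra hne
    by_cases hz : Z 1 = 0
    · have h0 : Z 0 ≠ 0 := fun h0 => hne (funext fun i => by fin_cases i <;> simp [h0, hz])
      rw [eval_homog_zero _ _ _ hz] at a0 a1
      have b0 : r.num.coeff d = 0 := (mul_eq_zero.1 a0).resolve_right (pow_ne_zero _ h0)
      have b1 : r.denom.coeff d = 0 := (mul_eq_zero.1 a1).resolve_right (pow_ne_zero _ h0)
      have c1 : r.denom.natDegree ≠ d := fun e => by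
        rw [← e] at b1
        exact r.denom_ne_zero (Polynomial.leadingCoeff_eq_zero.1 b1)
      have c0 : r.num.natDegree = d := by
        rw [deg] at hr
        omega
      rw [← c0] at b0
      have c2 : r.num = 0 := Polynomial.leadingCoeff_eq_zero.1 b0
      rw [c2, Polynomial.natDegree_zero] at c0
      omega
    · rw [Polynomial.eval_homogenize h1 _ hz] at a0
      rw [Polynomial.eval_homogenize h2 _ hz] at a1
      have b0 := (mul_eq_zero.1 a0).resolve_right (pow_ne_zero _ hz)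
      have b1 := (mul_eq_zero.1 a1).resolve_right (pow_ne_zero _ hz)
      obtain ⟨u, v, huv⟩ := r.isCoprime_num_denom
      have := congrArg (Polynomial.eval (Z 0 / Z 1)) huv
      simp [b0, b1] at this
  · rw [happ, hq]
    by_cases hz : W 1 = 0
    · have h0 : W 0 ≠ 0 := fun h0 => hW (funext fun i => by fin_cases i <;> simp [h0, hz])
      have : pt W = OnePoint.infty := by simp [pt, hz]
      rw [this, eval_homog_zero _ _ _ hz, eval_homog_zero _ _ _ hz,
        quot_mul _ _ _ (pow_ne_zero _ h0), act, hr]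
      rfl
    · have : pt W = OnePoint.some (W 0 / W 1) := by simp [pt, hz]
      rw [this, Polynomial.eval_homogenize h1 _ hz, Polynomial.eval_homogenize h2 _ hz,
        quot_mul _ _ _ (pow_ne_zero _ hz), act]
      rfl

theorem preper_subset (f : OnePoint ℂ → OnePoint ℂ) :
    preper f ⊆ {z | ∃ m n : ℕ, m < n ∧ f^[m] z = f^[n] z} := by
  intro z hz
  by_contra hc
  refine Set.infinite_range_of_injective (f := fun n : ℕ => f^[n] z) (fun m n hmn => ?_) hz
  by_contra hne
  rcases lt_or_gt_of_ne hne with h | h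
  · exact hc ⟨m, n, h, hmn⟩
  · exact hc ⟨n, m, h, hmn.symm⟩

end Pool.Agent.MP_3827f0_nt.H93
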